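import Pool.Agent.H24.SS.Shape2
import Pool.Agent.H24.Lib.seeded_1acbe0a2.Y354.PB.Final2
set_option autoImplicit false

namespace H24.SS

open Finset
open scoped Pointwise

universe u

/-- integer points of a bounded set -/
theorem int_fin {d : ℕ} {B : Set (Fin d → ℝ)} (hB : IsCompact B) {R : ℕ} (hR : 0 < R) :
    {c : Fin d → ℤ | (fun i => (c i : ℝ) / R) ∈ B}.Finite := by
  obtain ⟨M, hM⟩ := hB.isBounded.subset_closedBall 0
  have hR' : (0 : ℝ) < R := by exact_mod_cast hR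
  refine (Set.finite_Icc (fun _ : Fin d => -⌈M * R⌉) (fun _ => ⌈M * R⌉)).subset ?_
  intro c hc
  have h1 := hM hc
  rw [mem_closedBall_zero_iff] at h1
  have h2 : ∀ i, |(c i : ℝ)| ≤ M * R := by
    intro i
    have h3 := (norm_le_pi_norm (fun i => (c i : ℝ) / R) i).trans h1
    rw [Real.norm_eq_abs, abs_div, abs_of_pos hR', div_le_iff₀ hR'] at h3
    exact h3
  constructor
  · intro i
    have h3 := (abs_le.1 (h2 i)).1
    have h4 : -(⌈M * R⌉ : ℝ) ≤ c i := by linarith [Int.le_ceil (M * (R : ℝ))]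
    exact_mod_cast h4
  · intro i
    have h3 := (abs_le.1 (h2 i)).2
    have h4 : (c i : ℝ) ≤ (⌈M * R⌉ : ℝ) := by linarith [Int.le_ceil (M * (R : ℝ))]
    exact_mod_cast h4

theorem DS_sums {G : Type*} [AddCommGroup G] {A : Finset G} {N : ℕ} {x : G}
    (h : Pool.Agent.Y354.PB.DS A N x) : x ∈ Sums A N N := by
  obtain ⟨s, t, h1, h2, h3, h4, rfl⟩ := h
  exact of_multiset s t h1 h2 h3 h4

/-- the sums of elements of a partitioned set -/
theorem split_sums {G : Type*} [AddCommGroup G] [DecidableEq G] {r : ℕ} (A : Finset G)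
    (A' : Fin r → Finset G) (cl : G → Fin r) (hcl : ∀ a ∈ A, a ∈ A' (cl a)) {n m : ℕ} {x : G}
    (hx : x ∈ Sums A n m) :
    ∃ ν μ : Fin r → ℕ, ∑ i, ν i = n ∧ ∑ i, μ i = m ∧ x ∈ FSums A' ν μ := by
  classical
  obtain ⟨u, v, hu, hv, rfl⟩ := hx
  refine ⟨fun i => (univ.filter fun j => cl (u j) = i).card,
    fun i => (univ.filter fun j => cl (v j) = i).card, ?_, ?_, ?_⟩
  · have := (Finset.card_eq_sum_card_fiberwise (f := fun j => cl (u j)) (s := (univ : Finset (Fin n)))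
      (t := univ) (fun _ _ => Finset.mem_coe.2 (Finset.mem_univ _)))
    rw [← this, Finset.card_univ, Fintype.card_fin]
  · have := (Finset.card_eq_sum_card_fiberwise (f := fun j => cl (v j)) (s := (univ : Finset (Fin m)))
      (t := univ) (fun _ _ => Finset.mem_coe.2 (Finset.mem_univ _)))
    rw [← this, Finset.card_univ, Fintype.card_fin]
  · have h1 := fsums_of_ms A' (fun i => (univ.filter fun j => cl (u j) = i).card)
      (fun i => (univ.filter fun j => cl (v j) = i).card)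
      (fun i => (univ.filter fun j => cl (u j) = i).val.map u)
      (fun i => (univ.filter fun j => cl (v j) = i).val.map v)
      (fun i => by rw [Multiset.card_map]; rfl) (fun i => by rw [Multiset.card_map]; rfl)
      (by
        intro i a ha
        obtain ⟨j, hj, rfl⟩ := Multiset.mem_map.1 ha
        have h2 := (Finset.mem_filter.1 (show j ∈ univ.filter (fun j => cl (u j) = i) from hj)).2
        rw [← h2]
        exact hcl _ (hu j))
      (by
        intro i a ha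
        obtain ⟨j, hj, rfl⟩ := Multiset.mem_map.1 ha
        have h2 := (Finset.mem_filter.1 (show j ∈ univ.filter (fun j => cl (v j) = i) from hj)).2
        rw [← h2]
        exact hcl _ (hv j))
    have h3 : ∑ j, u j - ∑ j, v j = ∑ i, (((univ.filter fun j => cl (u j) = i).val.map u).sum -
        ((univ.filter fun j => cl (v j) = i).val.map v).sum) := by
      rw [Finset.sum_sub_distrib]
      congr 1
      · exact (Finset.sum_fiberwise (univ : Finset (Fin n)) (fun j => cl (u j)) u).symm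
      · exact (Finset.sum_fiberwise (univ : Finset (Fin m)) (fun j => cl (v j)) v).symm
    rw [h3]
    exact h1

theorem merge_sums {G : Type*} [AddCommGroup G] {r : ℕ} (A : Finset G) (A' : Fin r → Finset G)
    (hA' : ∀ i, A' i ⊆ A) (ν μ : Fin r → ℕ) {x : G} (hx : x ∈ FSums A' ν μ) :
    x ∈ Sums A (∑ i, ν i) (∑ i, μ i) := by
  classical
  obtain ⟨u, v, hu, hv, rfl⟩ := hx
  have h1 := of_multiset (A := A) (n := ∑ i, ν i) (m := ∑ i, μ i)
    (∑ i, (univ : Finset (Fin (ν i))).val.map (u i)) (∑ i, (univ : Finset (Fin (μ i))).val.map (v i))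
    (by rw [Multiset.card_sum]; exact Finset.sum_congr rfl fun i _ => by simp)
    (by rw [Multiset.card_sum]; exact Finset.sum_congr rfl fun i _ => by simp)
    (by
      intro a ha
      rw [Multiset.mem_sum] at ha
      obtain ⟨i, _, hi⟩ := ha
      obtain ⟨j, _, rfl⟩ := Multiset.mem_map.1 hi
      exact hA' i (hu i j))
    (by
      intro a ha
      rw [Multiset.mem_sum] at ha
      obtain ⟨i, _, hi⟩ := ha
      obtain ⟨j, _, rfl⟩ := Multiset.mem_map.1 hi
      exact hA' i (hv i j))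
  rw [Multiset.sum_sum, Multiset.sum_sum] at h1
  rw [Finset.sum_sub_distrib]
  exact h1

/-- all the parameters -/
theorem main2 {Γ : Type u} [AddCommGroup Γ] [DecidableEq Γ] {ε K : ℝ} (hε : 0 < ε) (hε1 : ε ≤ 1)
    {A : Finset Γ} (hA : A.Nonempty) (hK : ((A + A).card : ℝ) ≤ K * A.card) :
    ∃ (N D r : ℕ) (X : Fin r → Finset (Fin D → ℤ)) (ψ : (Fin D → ℤ) →+ Γ) (H : AddSubgroup Γ)
      (g : Fin r → Γ) (A' : Fin r → Finset Γ) (cl : Γ → Fin r),
      (N : ℝ) ≤ (60000000 / ε) ^ 3 * (((10000 * Real.log (2 * K)) ^ 2) * Real.log (2 * K)) ^ (2 + ε) ∧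
      (D : ℝ) ≤ 720 * Real.log (2 * K) ∧ (r : ℝ) ≤ (2 * K) ^ (720 / ε) ∧
      (∀ a i, a ∈ A' i ↔ a ∈ A ∧ cl a = i) ∧
      Finite H ∧ (∀ i, 0 ∈ X i) ∧ AddSubgroup.closure {x : Fin D → ℤ | ∃ i, x ∈ X i} = ⊤ ∧
      (∀ i, ∀ a ∈ A' i, ∃ x ∈ X i, a - (g i + ψ x) ∈ H) ∧
      (∀ i, ∀ x ∈ X i, ∃ a ∈ A' i, a - (g i + ψ x) ∈ H) ∧
      (∀ (n m : Fin r → ℕ) (x : Fin D → ℤ), InPoly X n m (re x) → ∀ h ∈ H,
        ∃ y ∈ FSums A' n m, ∃ z ∈ Sums A N N,
          ∑ i, ((n i : ℤ) • g i - (m i : ℤ) • g i) + ψ x + h = y + z) ∧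
      (∀ x y : Fin D → ℤ, re x ∈ ((2 * (D + 1) : ℕ) : ℝ) • Body X →
        re y ∈ ((2 * (D + 1) : ℕ) : ℝ) • Body X → ψ x - ψ y ∈ H → x = y) ∧
      (({x : Fin D → ℤ | re x ∈ ((2 * (D + 1) : ℕ) : ℝ) • Body X}.ncard * Nat.card H : ℕ) : ℝ) ≤
        Real.exp (500000 / ε * Real.log (2 * K) *
          (((10000 * Real.log (2 * K)) ^ 2) * Real.log (2 * K)) ^ ε) * A.card := by
  classical
  have hApos : (0 : ℝ) < A.card := by exact_mod_cast hA.card_pos
  have hK1 : 1 ≤ K := by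
    have h1 : (A.card : ℝ) ≤ (A + A).card := by
      exact_mod_cast Finset.card_le_card_add_right hA
    nlinarith
  obtain ⟨κ, hκ⟩ : ∃ κ : ℝ, κ = Real.log (2 * K) := ⟨_, rfl⟩
  have hκ69 : (0.69 : ℝ) < κ := by
    have h1 : Real.log 2 ≤ κ := by
      rw [hκ]; exact Real.log_le_log (by norm_num) (by linarith)
    have := Real.log_two_gt_d9
    linarith
  set R : ℕ := 4 * (⌊720 * κ⌋₊ + 1) with hR
  have hR1 : 1 ≤ R := by omega
  have hRκ : (R : ℝ) ≤ 10000 * κ := by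
    rw [hR]; push_cast
    have := Nat.floor_le (show (0 : ℝ) ≤ 720 * κ by positivity)
    linarith
  obtain ⟨N, d, B, ψ, H, T, hN, hd, hB, hH, hin, hinj, hvol, hTA, hT, hcov⟩ :=
    Pool.Agent.Y354.PB.main_all hε hε1 hR1 hA hK
  rw [← hκ] at hN hd hvol ⊢
  have hdR : 4 * (d + 1) ≤ R := by
    have h1 : d ≤ ⌊720 * κ⌋₊ := Nat.le_floor hd
    omega
  have h0B : (0 : Fin d → ℝ) ∈ B := by
    obtain ⟨b, hb⟩ := hB.2.2.1
    have h1 := interior_subset hb
    have h2 := hB.2.2.2 _ h1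
    have h3 := hB.1 h1 h2 (show (0 : ℝ) ≤ 1 / 2 by norm_num) (show (0 : ℝ) ≤ 1 / 2 by norm_num)
      (by norm_num)
    rw [smul_neg, add_neg_cancel] at h3
    exact h3
  -- the classes
  have hcov' : ∀ a ∈ A, ∃ t ∈ T, ∃ c : Fin d → ℤ, (fun i => (c i : ℝ)) ∈ B ∧ ∃ h ∈ H,
    a = t + ψ c + h := hcov
  have hτ : ∀ a : Γ, ∃ t : Γ, a ∈ A → t ∈ T ∧ ∃ c : Fin d → ℤ, (fun i => (c i : ℝ)) ∈ B ∧
      ∃ h ∈ H, a = t + ψ c + h := by
    intro a
    by_cases ha : a ∈ A
    · obtain ⟨t, ht⟩ := hcov' a ha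
      exact ⟨t, fun _ => ht⟩
    · exact ⟨0, fun h => absurd h ha⟩
  choose τ hτ using hτ
  set T' : Finset Γ := A.image τ with hT'
  have hT'T : T' ⊆ T := by
    intro t ht
    obtain ⟨a, ha, rfl⟩ := Finset.mem_image.1 ht
    exact (hτ a ha).1
  have hT'ne : T'.Nonempty := hA.image _
  set r := T'.card with hr
  have hrpos : 0 < r := hT'ne.card_pos
  let e : T' ≃ Fin r := T'.equivFin
  let cl : Γ → Fin r := fun a => if h : τ a ∈ T' then e ⟨τ a, h⟩ else ⟨0, hrpos⟩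
  have hcl : ∀ a ∈ A, ((e.symm (cl a) : T') : Γ) = τ a := by
    intro a ha
    have h1 : τ a ∈ T' := Finset.mem_image_of_mem _ ha
    simp only [cl, h1, dif_pos, Equiv.symm_apply_apply]
  set A' : Fin r → Finset Γ := fun i => A.filter fun a => cl a = i with hA'
  have hA'mem : ∀ a i, a ∈ A' i ↔ a ∈ A ∧ cl a = i := fun a i => by
    rw [hA', Finset.mem_filter]
  have hA'ne : ∀ i, (A' i).Nonempty := by
    intro i
    obtain ⟨a, ha, hai⟩ := Finset.mem_image.1 (e.symm i).2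
    refine ⟨a, (hA'mem a i).2 ⟨ha, ?_⟩⟩
    have h1 := hcl a ha
    rw [hai] at h1
    exact e.symm.injective (Subtype.ext h1)
  obtain ⟨D, φ, X, g, hDd, h0X, hclo, hφ, hEX, hXE, hmain, hprop⟩ :=
    core2 hdR hB.1 hB.2.2.2 h0B ψ H (Sums A N N)
      (fun c hc h hh => DS_sums (hin c hc h hh)) A' hA'ne (fun i => (e.symm i : Γ))
      (by
        intro i a ha
        obtain ⟨haA, hai⟩ := (hA'mem a i).1 ha
        obtain ⟨_, c, hc, h, hh, heq⟩ := hτ a haA
        refine ⟨c, hc, h, hh, ?_⟩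
        rw [← hai, hcl a haA]
        exact heq)
  have hDr : (D : ℝ) ≤ d := by exact_mod_cast hDd
  have hR0 : (0 : ℝ) ≤ R := Nat.cast_nonneg _
  refine ⟨N, D, r, X, ψ.comp φ, H, g, A', cl, ?_, hDr.trans hd, ?_, hA'mem, hH, h0X,
    hclo, hEX, hXE, hmain, ?_, ?_⟩
  · refine hN.trans ?_
    have hε0 : 0 ≤ 60000000 / ε := by positivity
    gcongr
  · refine le_trans ?_ hT
    exact_mod_cast Finset.card_le_card hT'T
  · intro x y hx hy hxy
    have h1 := hinj (φ x) (φ y) (hprop x hx) (hprop y hy) 0 H.zero_mem (ψ (φ x) - ψ (φ y)) hxy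
      (by abel)
    exact hφ h1.1
  · have hRpos : 0 < R := hR1
    have hle : {x : Fin D → ℤ | re x ∈ ((2 * (D + 1) : ℕ) : ℝ) • Body X}.ncard ≤
        {c : Fin d → ℤ | (fun i => (c i : ℝ) / R) ∈ B}.ncard := by
      refine Set.ncard_le_ncard_of_injOn φ (fun x hx => hprop x hx) hφ.injOn
        (int_fin hB.2.1 hRpos)
    have hle' : (({x : Fin D → ℤ | re x ∈ ((2 * (D + 1) : ℕ) : ℝ) • Body X}.ncard *
        Nat.card H : ℕ) : ℝ) ≤
        ({c : Fin d → ℤ | (fun i => (c i : ℝ) / R) ∈ B}.ncard * Nat.card H : ℝ) := by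
      exact_mod_cast Nat.mul_le_mul_right _ hle
    refine hle'.trans (hvol.trans ?_)
    gcongr

end H24.SS
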