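import Mathlib
set_option autoImplicit false

/-! A rounding lemma of Shapley-Folkman type. -/

namespace H24.SS

open Finset

variable {ι T : Type*} [Fintype ι] [DecidableEq ι] [Fintype T] [DecidableEq T] {D : ℕ}

/-- the coordinates which are not integers -/
noncomputable def frac (a : ι → ℝ) : Finset ι := univ.filter fun i => Int.fract (a i) ≠ 0

/-- one step: if there are many fractional coordinates, one of them can be removed -/
theorem round_step (t : ι → T) (v : ι → Fin D → ℝ) (a : ι → ℝ) (ha : ∀ i, 0 ≤ a i)
    (hint : ∀ g, ∃ k : ℤ, ∑ i ∈ univ.filter (fun i => t i = g), a i = k)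
    (hbig : 2 * D < (frac a).card) :
    ∃ b : ι → ℝ, (∀ i, 0 ≤ b i) ∧
      (∀ g, ∑ i ∈ univ.filter (fun i => t i = g), b i =
        ∑ i ∈ univ.filter (fun i => t i = g), a i) ∧
      ∑ i, b i • v i = ∑ i, a i • v i ∧ (frac b).card < (frac a).card := by
  set F := frac a with hF
  have hFmem : ∀ i, i ∈ F ↔ Int.fract (a i) ≠ 0 := fun i => by simp [hF, frac]
  -- every group that meets `F` meets it twice
  have h2 : 2 * (F.image t).card ≤ F.card := by
    have h1 : ∀ g ∈ F.image t, 2 ≤ (F.filter fun i => t i = g).card := by
      intro g hg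
      obtain ⟨i, hi, hig⟩ := Finset.mem_image.1 hg
      by_contra hlt
      have h3 : (F.filter fun i => t i = g) = {i} := by
        have h4 : i ∈ F.filter fun i => t i = g := Finset.mem_filter.2 ⟨hi, hig⟩
        have h5 : (F.filter fun i => t i = g).card = 1 := by
          have := Finset.card_pos.2 ⟨i, h4⟩
          omega
        obtain ⟨j, hj⟩ := Finset.card_eq_one.1 h5
        rw [hj] at h4
        rw [hj, Finset.mem_singleton.1 h4]
      obtain ⟨k, hk⟩ := hint g
      have h6 : ∑ j ∈ univ.filter (fun j => t j = g), Int.fract (a j) = Int.fract (a i) := by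
        have h7 : ∑ j ∈ univ.filter (fun j => t j = g), Int.fract (a j) =
            ∑ j ∈ F.filter (fun j => t j = g), Int.fract (a j) := by
          symm
          apply Finset.sum_subset
          · intro j hj
            rw [Finset.mem_filter] at hj ⊢
            exact ⟨Finset.mem_univ _, hj.2⟩
          · intro j hj hj'
            rw [Finset.mem_filter] at hj hj'
            by_contra h0
            exact hj' ⟨(hFmem j).2 h0, hj.2⟩
        rw [h7, h3, Finset.sum_singleton]
      have h8 : Int.fract (a i) = ((k - ∑ j ∈ univ.filter (fun j => t j = g), ⌊a j⌋ : ℤ) : ℝ) := by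
        rw [← h6]
        push_cast
        rw [← hk, ← Finset.sum_sub_distrib]
        exact Finset.sum_congr rfl fun j _ => by rw [Int.self_sub_floor]
      have h9 : Int.fract (a i) = 0 := by
        rw [← Int.fract_fract, h8, Int.fract_intCast]
      exact (hFmem i).1 hi h9
    calc 2 * (F.image t).card = ∑ _g ∈ F.image t, 2 := by rw [Finset.sum_const, smul_eq_mul, mul_comm]
      _ ≤ ∑ g ∈ F.image t, (F.filter fun i => t i = g).card := Finset.sum_le_sum h1
      _ = F.card := (Finset.card_eq_sum_card_image t F).symm
  -- a direction in the kernel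
  let L : (F → ℝ) →ₗ[ℝ] (Fin D → ℝ) × ({g // g ∈ F.image t} → ℝ) :=
    { toFun := fun c => (∑ i : F, c i • v i, fun g => ∑ i : F, if t i = g then c i else 0)
      map_add' := by
        intro c c'
        ext j
        · simp [add_mul, Finset.sum_add_distrib, add_smul, Finset.sum_apply]
        · simp only [Pi.add_apply, Prod.snd_add]
          rw [← Finset.sum_add_distrib]
          exact Finset.sum_congr rfl fun i _ => by split_ifs <;> simp
      map_smul' := by
        intro s c
        ext j
        · simp only [Pi.smul_apply, smul_eq_mul, RingHom.id_apply, Prod.smul_fst,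
            Finset.sum_apply, mul_assoc, Finset.mul_sum]
        · simp only [Pi.smul_apply, Prod.smul_snd, RingHom.id_apply, smul_eq_mul]
          rw [Finset.mul_sum]
          exact Finset.sum_congr rfl fun i _ => by split_ifs <;> simp }
  have hker : LinearMap.ker L ≠ ⊥ := by
    apply LinearMap.ker_ne_bot_of_finrank_lt
    rw [Module.finrank_prod, Module.finrank_fintype_fun_eq_card, Module.finrank_fintype_fun_eq_card,
      Module.finrank_fintype_fun_eq_card, Fintype.card_coe, Fintype.card_coe, Fintype.card_fin]
    omega
  obtain ⟨c, hc, hc0⟩ := Submodule.exists_mem_ne_zero_of_ne_bot hker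
  rw [LinearMap.mem_ker] at hc
  have hc1 : ∑ i : F, c i • v i = 0 := congrArg Prod.fst hc
  have hc2 : ∀ g ∈ F.image t, (∑ i : F, if t i = g then c i else 0) = 0 := fun g hg =>
    congrFun (congrArg Prod.snd hc) ⟨g, hg⟩
  -- extension by zero
  set e : ι → ℝ := fun i => if h : i ∈ F then c ⟨i, h⟩ else 0 with he
  have heF : ∀ i : F, e i = c i := fun i => by simp [he, i.2]
  have heN : ∀ i, i ∉ F → e i = 0 := fun i hi => by simp [he, hi]
  obtain ⟨j₁, hj₁⟩ : ∃ j : F, c j ≠ 0 := by
    by_contra h
    push Not at h
    exact hc0 (funext h)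
  set S : Finset ι := F.filter fun i => e i ≠ 0 with hS
  have hSne : S.Nonempty := ⟨j₁, Finset.mem_filter.2 ⟨j₁.2, by rw [heF]; exact hj₁⟩⟩
  set st : ι → ℝ := fun i => if 0 < e i then (1 - Int.fract (a i)) / e i
    else Int.fract (a i) / (-e i) with hst
  obtain ⟨i₀, hi₀, hmin⟩ := Finset.exists_min_image S st hSne
  have hi₀' := Finset.mem_filter.1 hi₀
  set s : ℝ := st i₀ with hs
  have hspos : 0 ≤ s := by
    rw [hs, hst]
    simp only
    have h1 := Int.fract_nonneg (a i₀)
    have h3 := (Int.fract_lt_one (a i₀)).le
    split_ifs with h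
    · exact div_nonneg (by linarith) h.le
    · exact div_nonneg h1 (by push Not at h; linarith)
  -- bounds for the new coordinates
  have hup : ∀ i, (⌊a i⌋ : ℝ) ≤ a i + s * e i ∧ a i + s * e i ≤ ⌊a i⌋ + 1 := by
    intro i
    have h1 := Int.fract_nonneg (a i)
    have h3 := (Int.fract_lt_one (a i)).le
    have h4 : a i = ⌊a i⌋ + Int.fract (a i) := (Int.floor_add_fract _).symm
    by_cases hiS : i ∈ S
    · have h5 := hmin i hiS
      have h6 := (Finset.mem_filter.1 hiS).2
      rw [hst] at h5
      simp only at h5
      split_ifs at h5 with h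
      · rw [le_div_iff₀ h] at h5
        constructor <;> nlinarith
      · have h7 : 0 < -e i := by
          push Not at h
          rcases h.lt_or_eq with h | h
          · linarith
          · exact absurd h h6
        rw [le_div_iff₀ h7] at h5
        constructor <;> nlinarith
    · have h5 : e i = 0 := by
        by_contra h
        apply hiS
        refine Finset.mem_filter.2 ⟨?_, h⟩
        by_contra hiF
        exact h (heN i hiF)
      rw [h5, mul_zero, add_zero]
      constructor <;> linarith
  have hi₀int : Int.fract (a i₀ + s * e i₀) = 0 := by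
    have h6 := hi₀'.2
    rw [hs, hst]
    simp only
    split_ifs with h
    · rw [div_mul_cancel₀ _ h6]
      have : a i₀ + (1 - Int.fract (a i₀)) = ((⌊a i₀⌋ + 1 : ℤ) : ℝ) := by
        have := Int.floor_add_fract (a i₀)
        push_cast
        linarith
      rw [this, Int.fract_intCast]
    · have h7 : Int.fract (a i₀) / (-e i₀) * e i₀ = - Int.fract (a i₀) := by
        field_simp
      rw [h7]
      have : a i₀ + -Int.fract (a i₀) = ((⌊a i₀⌋ : ℤ) : ℝ) := by
        have := Int.floor_add_fract (a i₀)
        linarith
      rw [this, Int.fract_intCast]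
  refine ⟨fun i => a i + s * e i, ?_, ?_, ?_, ?_⟩
  · intro i
    have h1 : (0 : ℝ) ≤ ⌊a i⌋ := by
      exact_mod_cast Int.floor_nonneg.2 (ha i)
    linarith [(hup i).1]
  · intro g
    rw [Finset.sum_add_distrib, ← Finset.mul_sum]
    have h1 : ∑ i ∈ univ.filter (fun i => t i = g), e i = 0 := by
      have h3 : ∑ i ∈ univ.filter (fun i => t i = g), e i =
          ∑ i ∈ F, if t i = g then e i else 0 := by
        rw [Finset.sum_filter]
        symm
        apply Finset.sum_subset (Finset.subset_univ _)
        intro i _ hi
        rw [heN i hi, ite_self]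
      rw [h3]
      by_cases hg : g ∈ F.image t
      · rw [← Finset.sum_coe_sort F (fun i => if t i = g then e i else 0)]
        refine Eq.trans ?_ (hc2 g hg)
        exact Finset.sum_congr rfl fun i _ => by rw [heF]
      · apply Finset.sum_eq_zero
        intro i hi
        rw [if_neg]
        intro h
        exact hg (Finset.mem_image.2 ⟨i, hi, h⟩)
    rw [h1, mul_zero, add_zero]
  · have h1 : ∑ i, e i • v i = 0 := by
      have h3 : ∑ i, e i • v i = ∑ i ∈ F, e i • v i := by
        symm
        apply Finset.sum_subset (Finset.subset_univ _)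
        intro i _ hi
        rw [heN i hi, zero_smul]
      rw [h3, ← Finset.sum_coe_sort F (fun i => e i • v i), ← hc1]
      exact Finset.sum_congr rfl fun i _ => by rw [heF]
    simp only [add_smul, mul_smul]
    rw [Finset.sum_add_distrib, ← Finset.smul_sum, h1, smul_zero, add_zero]
  · apply Finset.card_lt_card
    rw [Finset.ssubset_iff_of_subset]
    · refine ⟨i₀, hi₀'.1, ?_⟩
      intro h
      exact (Finset.mem_filter.1 h).2 hi₀int
    · intro i hi
      have h1 := (Finset.mem_filter.1 hi).2
      rw [hFmem]
      intro h0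
      have hiF : i ∉ F := by rw [hFmem]; simpa using h0
      simp only at h1
      rw [heN i hiF, mul_zero, add_zero] at h1
      exact h1 h0

/-- **Rounding.** Nonnegative reals with integer sums over the groups can be changed such that all
but `2 D` of them are integers, without changing the sums over the groups and the sum of the
vectors in `ℝ ^ D` with these coefficients. -/
theorem round (t : ι → T) (v : ι → Fin D → ℝ) (a : ι → ℝ) (ha : ∀ i, 0 ≤ a i)
    (hint : ∀ g, ∃ k : ℤ, ∑ i ∈ univ.filter (fun i => t i = g), a i = k) :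
    ∃ b : ι → ℝ, (∀ i, 0 ≤ b i) ∧
      (∀ g, ∑ i ∈ univ.filter (fun i => t i = g), b i =
        ∑ i ∈ univ.filter (fun i => t i = g), a i) ∧
      ∑ i, b i • v i = ∑ i, a i • v i ∧ (frac b).card ≤ 2 * D := by
  obtain ⟨k, hk⟩ : ∃ k, (frac a).card ≤ k := ⟨_, le_rfl⟩
  induction k using Nat.strong_induction_on generalizing a with
  | _ k ih =>
    by_cases hbig : 2 * D < (frac a).card
    · obtain ⟨b, hb, hbs, hbv, hlt⟩ := round_step t v a ha hint hbig
      obtain ⟨b', hb', hbs', hbv', hle⟩ := ih (frac b).card (lt_of_lt_of_le hlt hk) b hb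
        (fun g => by rw [hbs g]; exact hint g) le_rfl
      exact ⟨b', hb', fun g => (hbs' g).trans (hbs g), hbv'.trans hbv, hle⟩
    · exact ⟨a, ha, fun _ => rfl, rfl, by omega⟩

end H24.SS
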