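import Mathlib
set_option autoImplicit false

/-! The shape of iterated sumsets: rounding in a polytope. -/

namespace H24.SS

open Finset
open scoped Pointwise

/-- the real vector of an integer vector -/
def re {D : ℕ} (x : Fin D → ℤ) : Fin D → ℝ := fun i => (x i : ℝ)

theorem re_add {D : ℕ} (x y : Fin D → ℤ) : re (x + y) = re x + re y := by
  ext i; simp [re]

theorem re_sub {D : ℕ} (x y : Fin D → ℤ) : re (x - y) = re x - re y := by
  ext i; simp [re]

theorem re_zero {D : ℕ} : re (0 : Fin D → ℤ) = 0 := by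
  ext i; simp [re]

theorem re_nsmul {D : ℕ} (n : ℕ) (x : Fin D → ℤ) : re (n • x) = (n : ℝ) • re x := by
  ext i; simp [re]

theorem re_inj {D : ℕ} {x y : Fin D → ℤ} (h : re x = re y) : x = y := by
  ext i
  have := congrFun h i
  simpa [re] using this

theorem re_msum {D : ℕ} (s : Multiset (Fin D → ℤ)) : re s.sum = (s.map re).sum := by
  induction s using Multiset.induction with
  | empty => simp [re_zero]
  | cons a s ih => simp [re_add, ih]

theorem re_sum {D : ℕ} {ι : Type*} (s : Finset ι) (f : ι → Fin D → ℤ) :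
    re (∑ i ∈ s, f i) = ∑ i ∈ s, re (f i) := by
  classical
  induction s using Finset.induction with
  | empty => simp [re_zero]
  | insert a s ha ih => rw [Finset.sum_insert ha, Finset.sum_insert ha, re_add, ih]

/-- subconvex combinations -/
theorem sub_mem {V ι : Type*} [AddCommGroup V] [Module ℝ V] [Fintype ι] {C : Set V}
    (hC : Convex ℝ C) (h0 : (0 : V) ∈ C) (w : ι → ℝ) (z : ι → V) (hw : ∀ i, 0 ≤ w i)
    (hw1 : ∑ i, w i ≤ 1) (hz : ∀ i, z i ∈ C) : ∑ i, w i • z i ∈ C := by
  classical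
  have h := hC.sum_mem (t := (Finset.univ : Finset (Option ι)))
    (w := fun o => Option.elim o (1 - ∑ i, w i) w) (z := fun o => Option.elim o 0 z)
    (by
      intro o _
      cases o with
      | none => simpa using hw1
      | some i => exact hw i)
    (by rw [Fintype.sum_option]; simp)
    (by
      intro o _
      cases o with
      | none => exact h0
      | some i => exact hz i)
  rw [Fintype.sum_option] at h
  simpa using h

/-- `x` is a sum of `n` elements of `A` minus a sum of `m` elements of `A` -/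
def Sums {G : Type*} [AddCommGroup G] (A : Finset G) (n m : ℕ) : Set G :=
  {x | ∃ (u : Fin n → G) (v : Fin m → G), (∀ i, u i ∈ A) ∧ (∀ i, v i ∈ A) ∧
    x = ∑ i, u i - ∑ i, v i}

theorem of_multiset {G : Type*} [AddCommGroup G] {A : Finset G} {n m : ℕ} (s t : Multiset G)
    (hns : Multiset.card s = n) (hmt : Multiset.card t = m)
    (hs : ∀ a ∈ s, a ∈ A) (ht : ∀ a ∈ t, a ∈ A) : s.sum - t.sum ∈ Sums A n m := by
  have key : ∀ (s : Multiset G) (n : ℕ), Multiset.card s = n → (∀ a ∈ s, a ∈ A) →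
      ∃ u : Fin n → G, (∀ i, u i ∈ A) ∧ s.sum = ∑ i, u i := by
    intro s n hn hA
    induction s using Quotient.inductionOn with
    | h l =>
      have hl : l.length = n := hn
      subst hl
      refine ⟨fun i => l.get i, fun i => hA _ (List.get_mem l i), ?_⟩
      change (l : Multiset G).sum = _
      rw [Multiset.sum_coe, ← List.sum_ofFn, List.ofFn_get]
  obtain ⟨u, hu, hu'⟩ := key s n hns hs
  obtain ⟨v, hv, hv'⟩ := key t m hmt ht
  exact ⟨u, v, hu, hv, by rw [hu', hv']⟩

/-- the change of the lattice -/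
theorem lattice {d : ℕ} (X₀ : Finset (Fin d → ℤ)) :
    ∃ (D : ℕ) (φ : (Fin D → ℤ) →+ (Fin d → ℤ)) (Φ : (Fin D → ℝ) →ₗ[ℝ] (Fin d → ℝ))
      (X : Finset (Fin D → ℤ)), D ≤ d ∧ (∀ x, Φ (re x) = re (φ x)) ∧ Function.Injective φ ∧
      (∀ x, x ∈ X ↔ φ x ∈ X₀) ∧ (∀ y ∈ X₀, ∃ x, φ x = y) ∧
      AddSubgroup.closure (X : Set (Fin D → ℤ)) = ⊤ := by
  classical
  set W : Submodule ℤ (Fin d → ℤ) := Submodule.span ℤ (X₀ : Set (Fin d → ℤ)) with hW
  set D := Module.finrank ℤ W with hD
  have b : Module.Basis (Fin D) ℤ W := Module.finBasis ℤ W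
  have hDd : D ≤ d := by
    have h1 := Submodule.finrank_le W
    simpa using h1
  set φ : (Fin D → ℤ) →+ (Fin d → ℤ) :=
    (W.subtype.comp b.equivFun.symm.toLinearMap).toAddMonoidHom with hφ
  have hφx : ∀ x, φ x = ((b.equivFun.symm x : W) : Fin d → ℤ) := fun x => rfl
  have hinj : Function.Injective φ := by
    intro x y hxy
    rw [hφx, hφx] at hxy
    exact b.equivFun.symm.injective (Subtype.ext hxy)
  set Φ : (Fin D → ℝ) →ₗ[ℝ] (Fin d → ℝ) :=
    Matrix.mulVecLin (Matrix.of fun (i : Fin d) (j : Fin D) => (((b j : W) : Fin d → ℤ) i : ℝ)) with hΦ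
  have hcomm : ∀ x, Φ (re x) = re (φ x) := by
    intro x
    ext i
    rw [hφx, b.equivFun_symm_apply, hΦ, Matrix.mulVecLin_apply]
    simp only [Matrix.mulVec, dotProduct, Matrix.of_apply, re]
    rw [Submodule.coe_sum, Finset.sum_apply]
    push_cast
    refine Finset.sum_congr rfl fun j _ => ?_
    simp [mul_comm]
  have hsurj : ∀ y ∈ W, ∃ x, φ x = y := by
    intro y hy
    exact ⟨b.equivFun ⟨y, hy⟩, by rw [hφx, LinearEquiv.symm_apply_apply]⟩
  set X : Finset (Fin D → ℤ) := X₀.preimage φ hinj.injOn with hX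
  refine ⟨D, φ, Φ, X, hDd, hcomm, hinj, fun x => by rw [hX, Finset.mem_preimage],
    fun y hy => hsurj y (Submodule.subset_span hy), ?_⟩
  rw [eq_top_iff]
  intro x _
  -- the image of the closure of `X` is the closure of `X₀`
  have h1 : ∀ y ∈ AddSubgroup.closure (X₀ : Set (Fin d → ℤ)),
      ∃ x ∈ AddSubgroup.closure (X : Set (Fin D → ℤ)), φ x = y := by
    intro y hy
    induction hy using AddSubgroup.closure_induction with
    | mem y hy =>
      obtain ⟨x, hx⟩ := hsurj y (Submodule.subset_span hy)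
      refine ⟨x, AddSubgroup.subset_closure ?_, hx⟩
      rw [hX, Finset.coe_preimage, Set.mem_preimage, hx]
      exact hy
    | zero => exact ⟨0, AddSubgroup.zero_mem _, map_zero _⟩
    | add y z _ _ hy hz =>
      obtain ⟨a, ha, rfl⟩ := hy
      obtain ⟨c, hc, rfl⟩ := hz
      exact ⟨a + c, AddSubgroup.add_mem _ ha hc, map_add _ _ _⟩
    | neg y _ hy =>
      obtain ⟨a, ha, rfl⟩ := hy
      exact ⟨-a, AddSubgroup.neg_mem _ ha, map_neg _ _⟩
  have h2 : φ x ∈ AddSubgroup.closure (X₀ : Set (Fin d → ℤ)) := by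
    have h3 : φ x ∈ W := by rw [hφx]; exact Subtype.coe_prop _
    rw [hW] at h3
    have h4 := Submodule.span_int_eq_addSubgroupClosure (X₀ : Set (Fin d → ℤ))
    rw [← h4]
    exact h3
  obtain ⟨z, hz, hzx⟩ := h1 _ h2
  rwa [hinj hzx] at hz

end H24.SS
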