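import Pool.Agent.H24.SS.Shape
import Pool.Agent.H24.SS.Round
set_option autoImplicit false

/-! The shape of the iterated sumsets: sums of several polytopes. -/

namespace H24.SS

open Finset
open scoped Pointwise

/-- `x` is in the polytope `∑ (n i P i - m i P i)`, `P i` the convex hull of `X i` -/
def InPoly {r D : ℕ} (X : Fin r → Finset (Fin D → ℤ)) (n m : Fin r → ℕ) (x : Fin D → ℝ) : Prop :=
  ∃ p q : Fin r → Fin D → ℝ, (∀ i, p i ∈ convexHull ℝ (re '' (X i : Set (Fin D → ℤ)))) ∧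
    (∀ i, q i ∈ convexHull ℝ (re '' (X i : Set (Fin D → ℤ)))) ∧
    x = ∑ i, ((n i : ℝ) • p i - (m i : ℝ) • q i)

/-- the sums `∑ (n i A i - m i A i)` -/
def FSums {G : Type*} [AddCommGroup G] {r : ℕ} (A : Fin r → Finset G) (n m : Fin r → ℕ) : Set G :=
  {x | ∃ (u : (i : Fin r) → Fin (n i) → G) (v : (i : Fin r) → Fin (m i) → G),
    (∀ i j, u i j ∈ A i) ∧ (∀ i j, v i j ∈ A i) ∧ x = ∑ i, (∑ j, u i j - ∑ j, v i j)}

theorem hull_weights {D : ℕ} (X : Finset (Fin D → ℤ)) (p : Fin D → ℝ)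
    (hp : p ∈ convexHull ℝ (re '' (X : Set (Fin D → ℤ)))) :
    ∃ w : {x // x ∈ X} → ℝ, (∀ x, 0 ≤ w x) ∧ ∑ x, w x = 1 ∧ ∑ x, w x • re (x : Fin D → ℤ) = p := by
  classical
  have h1 : (re '' (X : Set (Fin D → ℤ))) = ((X.image re : Finset (Fin D → ℝ)) : Set (Fin D → ℝ)) := by
    rw [Finset.coe_image]
  rw [h1, Finset.mem_convexHull'] at hp
  obtain ⟨w, hw, hw1, hwp⟩ := hp
  have hre : Function.Injective (re : (Fin D → ℤ) → (Fin D → ℝ)) := fun x y h => re_inj h
  rw [Finset.sum_image (fun x _ y _ h => hre h)] at hw1 hwp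
  refine ⟨fun x => w (re x.1), fun x => hw _ (Finset.mem_image_of_mem _ x.2), ?_, ?_⟩
  · rw [← hw1]
    exact Finset.sum_coe_sort X (fun x => w (re x))
  · rw [← hwp]
    exact Finset.sum_coe_sort X (fun x => w (re x) • re x)

variable {r D : ℕ} (X : Fin r → Finset (Fin D → ℤ))

/-- the index set of the rounding -/
abbrev Ix {r D : ℕ} (X : Fin r → Finset (Fin D → ℤ)) : Type := Bool × ((i : Fin r) × {x // x ∈ X i})

theorem sum_Ix {M : Type*} [AddCommMonoid M] (F : Ix X → M) :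
    ∑ k, F k = ∑ i, (∑ x : {x // x ∈ X i}, F (true, ⟨i, x⟩) + ∑ x : {x // x ∈ X i}, F (false, ⟨i, x⟩)) := by
  rw [Fintype.sum_prod_type, Fintype.sum_bool, Fintype.sum_sigma, Fintype.sum_sigma,
    Finset.sum_add_distrib]

theorem sum_group [DecidableEq (Ix X)] (F : Ix X → ℝ) (c : Bool) (g : Fin r) :
    ∑ k ∈ univ.filter (fun k : Ix X => (k.1, k.2.1) = (c, g)), F k =
      ∑ x : {x // x ∈ X g}, F (c, ⟨g, x⟩) := by
  rw [Finset.sum_filter, Fintype.sum_prod_type]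
  rw [Finset.sum_eq_single c]
  · rw [Fintype.sum_sigma, Finset.sum_eq_single g]
    · exact Finset.sum_congr rfl fun x _ => by simp
    · intro i _ hi
      apply Finset.sum_eq_zero
      intro x _
      rw [if_neg]
      intro h
      exact hi (congrArg Prod.snd h)
    · intro h; exact absurd (Finset.mem_univ _) h
  · intro c' _ hc'
    apply Finset.sum_eq_zero
    intro x _
    rw [if_neg]
    intro h
    exact hc' (congrArg Prod.fst h)
  · intro h; exact absurd (Finset.mem_univ _) h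

/-- the multiset with multiplicities `⌊b x⌋`, filled up by zeros -/
theorem exists_ms {X : Finset (Fin D → ℤ)} (h0 : (0 : Fin D → ℤ) ∈ X) (n : ℕ)
    (b : {x // x ∈ X} → ℝ) (hb : ∀ x, 0 ≤ b x) (hs : ∑ x, b x = n) :
    ∃ s : Multiset (Fin D → ℤ), Multiset.card s = n ∧ (∀ x ∈ s, x ∈ X) ∧
      re s.sum = ∑ x : {x // x ∈ X}, (⌊b x⌋ : ℝ) • re (x : Fin D → ℤ) := by
  classical
  have hfl : ∀ x, (⌊b x⌋₊ : ℝ) = ⌊b x⌋ := fun x => by
    rw [natCast_floor_eq_intCast_floor (hb x)]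
  have hasum : ∑ x, ⌊b x⌋₊ ≤ n := by
    have h1 : ((∑ x, ⌊b x⌋₊ : ℕ) : ℝ) ≤ n := by
      push_cast
      rw [← hs]
      exact Finset.sum_le_sum fun x _ => Nat.floor_le (hb x)
    exact_mod_cast h1
  refine ⟨(∑ x : {x // x ∈ X}, Multiset.replicate ⌊b x⌋₊ (x : Fin D → ℤ)) +
    Multiset.replicate (n - ∑ x, ⌊b x⌋₊) 0, ?_, ?_, ?_⟩
  · rw [Multiset.card_add, Multiset.card_replicate, Multiset.card_sum]
    simp only [Multiset.card_replicate]
    omega
  · intro x hx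
    rcases Multiset.mem_add.1 hx with h | h
    · rw [Multiset.mem_sum] at h
      obtain ⟨i, _, hi⟩ := h
      rw [Multiset.eq_of_mem_replicate hi]
      exact i.2
    · rw [Multiset.eq_of_mem_replicate h]
      exact h0
  · rw [Multiset.sum_add, Multiset.sum_replicate, smul_zero, add_zero, Multiset.sum_sum, re_sum]
    refine Finset.sum_congr rfl fun x _ => ?_
    rw [Multiset.sum_replicate, re_nsmul, hfl]

/-- rounding a point of a sum of polytopes with integer vertices -/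
theorem split2 {d : ℕ} (h0 : ∀ i, (0 : Fin D → ℤ) ∈ X i) (n m : Fin r → ℕ) (x : Fin D → ℝ)
    (hx : InPoly X n m x) :
    ∃ s s' : Fin r → Multiset (Fin D → ℤ), (∀ i, Multiset.card (s i) = n i) ∧
      (∀ i, Multiset.card (s' i) = m i) ∧ (∀ i, ∀ y ∈ s i, y ∈ X i) ∧ (∀ i, ∀ y ∈ s' i, y ∈ X i) ∧
      ∀ (φ : (Fin D → ℝ) →ₗ[ℝ] (Fin d → ℝ)) (C : Set (Fin d → ℝ)), Convex ℝ C → (0 : Fin d → ℝ) ∈ C →
        (∀ y ∈ C, -y ∈ C) → (∀ i, ∀ y ∈ X i, φ (re y) ∈ C) →
        (((2 * D + 1 : ℕ) : ℝ))⁻¹ • φ (x - ∑ i, (re (s i).sum - re (s' i).sum)) ∈ C := by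
  classical
  obtain ⟨p, q, hp, hq, rfl⟩ := hx
  have hp' := fun i => hull_weights (X i) (p i) (hp i)
  have hq' := fun i => hull_weights (X i) (q i) (hq i)
  choose w hw hw1 hwp using hp'
  choose w' hw' hw1' hwq using hq'
  set a : Ix X → ℝ := fun k => if k.1 then (n k.2.1 : ℝ) * w k.2.1 k.2.2 else
    (m k.2.1 : ℝ) * w' k.2.1 k.2.2 with ha
  set v : Ix X → (Fin D → ℝ) := fun k => if k.1 then re (k.2.2 : Fin D → ℤ) else
    -re (k.2.2 : Fin D → ℤ) with hv
  have ha0 : ∀ k, 0 ≤ a k := by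
    rintro ⟨c, i, y⟩
    cases c
    · exact mul_nonneg (Nat.cast_nonneg _) (hw' _ _)
    · exact mul_nonneg (Nat.cast_nonneg _) (hw _ _)
  have hgrT : ∀ g, ∑ k ∈ univ.filter (fun k : Ix X => (k.1, k.2.1) = (true, g)), a k = n g := by
    intro g
    rw [sum_group X a true g]
    simp only [ha, if_true]
    rw [← Finset.mul_sum, hw1, mul_one]
  have hgrF : ∀ g, ∑ k ∈ univ.filter (fun k : Ix X => (k.1, k.2.1) = (false, g)), a k = m g := by
    intro g
    rw [sum_group X a false g]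
    simp only [ha]
    simp only [Bool.false_eq_true, if_false]
    rw [← Finset.mul_sum, hw1', mul_one]
  obtain ⟨b, hb0, hbs, hbv, hbf⟩ := round (fun k : Ix X => (k.1, k.2.1)) v a ha0 (by
    rintro ⟨c, g⟩
    cases c
    · exact ⟨m g, by rw [hgrF g]; norm_cast⟩
    · exact ⟨n g, by rw [hgrT g]; norm_cast⟩)
  have hbT : ∀ g, ∑ y : {y // y ∈ X g}, b (true, ⟨g, y⟩) = n g := by
    intro g
    rw [← sum_group X b true g, hbs (true, g), hgrT g]
  have hbF : ∀ g, ∑ y : {y // y ∈ X g}, b (false, ⟨g, y⟩) = m g := by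
    intro g
    rw [← sum_group X b false g, hbs (false, g), hgrF g]
  have hS := fun i => exists_ms (h0 i) (n i) (fun y => b (true, ⟨i, y⟩)) (fun y => hb0 _) (hbT i)
  have hS' := fun i => exists_ms (h0 i) (m i) (fun y => b (false, ⟨i, y⟩)) (fun y => hb0 _) (hbF i)
  choose s hs hsX hsum using hS
  choose s' hs' hsX' hsum' using hS'
  refine ⟨s, s', hs, hs', hsX, hsX', ?_⟩
  intro φ C hC hC0 hCs hφ
  -- the total
  have htot : ∑ i, ((n i : ℝ) • p i - (m i : ℝ) • q i) = ∑ k, a k • v k := by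
    rw [sum_Ix]
    refine Finset.sum_congr rfl fun i _ => ?_
    simp only [ha, hv, if_true, Bool.false_eq_true, if_false]
    rw [← hwp i, ← hwq i, Finset.smul_sum, Finset.smul_sum, sub_eq_add_neg, ← Finset.sum_neg_distrib]
    congr 1
    · exact Finset.sum_congr rfl fun y _ => by rw [smul_smul]
    · exact Finset.sum_congr rfl fun y _ => by rw [smul_smul, smul_neg]
  have hint : ∑ i, (re (s i).sum - re (s' i).sum) = ∑ k, (⌊b k⌋ : ℝ) • v k := by
    rw [sum_Ix]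
    refine Finset.sum_congr rfl fun i _ => ?_
    simp only [hv, if_true, Bool.false_eq_true, if_false]
    rw [hsum i, hsum' i, sub_eq_add_neg, ← Finset.sum_neg_distrib]
    congr 1
    exact Finset.sum_congr rfl fun y _ => by rw [smul_neg]
  have hrem : ∑ i, ((n i : ℝ) • p i - (m i : ℝ) • q i) - ∑ i, (re (s i).sum - re (s' i).sum) =
      ∑ k, Int.fract (b k) • v k := by
    rw [htot, ← hbv, hint, ← Finset.sum_sub_distrib]
    refine Finset.sum_congr rfl fun k _ => ?_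
    rw [← sub_smul, Int.self_sub_floor]
  rw [hrem, map_sum, Finset.smul_sum]
  have h2 : ∀ k, (((2 * D + 1 : ℕ) : ℝ))⁻¹ • φ (Int.fract (b k) • v k) =
      ((((2 * D + 1 : ℕ) : ℝ))⁻¹ * Int.fract (b k)) • φ (v k) := by
    intro k
    rw [map_smul, smul_smul]
  simp only [h2]
  have hpos : (0 : ℝ) < (((2 * D + 1 : ℕ) : ℝ))⁻¹ := by positivity
  refine sub_mem hC hC0 _ _ (fun k => mul_nonneg hpos.le (Int.fract_nonneg _)) ?_ ?_
  · rw [← Finset.mul_sum]
    have h3 : ∑ k, Int.fract (b k) ≤ ((2 * D + 1 : ℕ) : ℝ) := by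
      have h4 : ∑ k, Int.fract (b k) = ∑ k ∈ frac b, Int.fract (b k) := by
        symm
        apply Finset.sum_subset (Finset.subset_univ _)
        intro k _ hk
        by_contra h
        exact hk (Finset.mem_filter.2 ⟨Finset.mem_univ _, h⟩)
      rw [h4]
      calc ∑ k ∈ frac b, Int.fract (b k) ≤ ∑ _k ∈ frac b, (1 : ℝ) :=
            Finset.sum_le_sum fun k _ => (Int.fract_lt_one _).le
        _ = (frac b).card := by simp
        _ ≤ ((2 * D + 1 : ℕ) : ℝ) := by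
            have : (frac b).card ≤ 2 * D + 1 := by omega
            exact_mod_cast this
    calc (((2 * D + 1 : ℕ) : ℝ))⁻¹ * ∑ k, Int.fract (b k)
        ≤ (((2 * D + 1 : ℕ) : ℝ))⁻¹ * ((2 * D + 1 : ℕ) : ℝ) := by gcongr
      _ = 1 := inv_mul_cancel₀ (by positivity)
  · rintro ⟨c, i, y⟩
    cases c
    · simp only [hv, Bool.false_eq_true, if_false, map_neg]
      exact hCs _ (hφ i _ y.2)
    · simp only [hv, if_true]
      exact hφ i _ y.2

theorem fsums_of_ms {G : Type*} [AddCommGroup G] {r : ℕ} (A : Fin r → Finset G) (n m : Fin r → ℕ)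
    (s s' : Fin r → Multiset G) (hs : ∀ i, Multiset.card (s i) = n i)
    (hs' : ∀ i, Multiset.card (s' i) = m i) (hA : ∀ i, ∀ a ∈ s i, a ∈ A i)
    (hA' : ∀ i, ∀ a ∈ s' i, a ∈ A i) : ∑ i, ((s i).sum - (s' i).sum) ∈ FSums A n m := by
  have key := fun i => of_multiset (A := A i) (s i) (s' i) (hs i) (hs' i) (hA i) (hA' i)
  choose u v hu hv huv using key
  exact ⟨u, v, hu, hv, Finset.sum_congr rfl fun i _ => huv i⟩

/-- the symmetric polytope spanned by the differences of elements of the same `X i` -/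
def Body {r D : ℕ} (X : Fin r → Finset (Fin D → ℤ)) : Set (Fin D → ℝ) :=
  convexHull ℝ {z | ∃ i, ∃ x ∈ X i, ∃ y ∈ X i, z = re (x - y)}

/-- **The shape of the iterated sumsets**: combinatorial part. -/
theorem core2 {G : Type*} [AddCommGroup G] {d R r : ℕ} (hR : 4 * (d + 1) ≤ R)
    {B : Set (Fin d → ℝ)} (hB : Convex ℝ B) (hsymm : ∀ x ∈ B, -x ∈ B) (h0B : (0 : Fin d → ℝ) ∈ B)
    (ψ : (Fin d → ℤ) →+ G) (H : AddSubgroup G) (P : Set G)
    (hDS : ∀ c : Fin d → ℤ, (fun i => (c i : ℝ) / R) ∈ B → ∀ h ∈ H, ψ c + h ∈ P)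
    (A : Fin r → Finset G) (hA : ∀ i, (A i).Nonempty) (t : Fin r → G)
    (hAt : ∀ i, ∀ e ∈ A i, ∃ c : Fin d → ℤ, (fun i => (c i : ℝ)) ∈ B ∧ ∃ h ∈ H, e = t i + ψ c + h) :
    ∃ (D : ℕ) (φ : (Fin D → ℤ) →+ (Fin d → ℤ)) (X : Fin r → Finset (Fin D → ℤ)) (g : Fin r → G),
      D ≤ d ∧ (∀ i, 0 ∈ X i) ∧
      AddSubgroup.closure {x : Fin D → ℤ | ∃ i, x ∈ X i} = ⊤ ∧ Function.Injective φ ∧
      (∀ i, ∀ e ∈ A i, ∃ x ∈ X i, e - (g i + ψ (φ x)) ∈ H) ∧
      (∀ i, ∀ x ∈ X i, ∃ e ∈ A i, e - (g i + ψ (φ x)) ∈ H) ∧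
      (∀ (n m : Fin r → ℕ) (x : Fin D → ℤ), InPoly X n m (re x) → ∀ h ∈ H,
        ∃ y ∈ FSums A n m, ∃ z ∈ P,
          ∑ i, ((n i : ℤ) • g i - (m i : ℤ) • g i) + ψ (φ x) + h = y + z) ∧
      (∀ x : Fin D → ℤ, re x ∈ ((2 * (D + 1) : ℕ) : ℝ) • Body X →
        (fun i => (φ x i : ℝ) / R) ∈ B) := by
  classical
  have hEt' : ∀ i, ∀ e : G, ∃ c : Fin d → ℤ, e ∈ A i → re c ∈ B ∧ e - (t i + ψ c) ∈ H := by
    intro i e
    by_cases he : e ∈ A i
    · obtain ⟨c, hc, h, hh, heq⟩ := hAt i e he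
      refine ⟨c, fun _ => ⟨hc, ?_⟩⟩
      rw [heq]
      have : t i + ψ c + h - (t i + ψ c) = h := by abel
      rw [this]; exact hh
    · exact ⟨0, fun h => absurd h he⟩
  choose c hc using hEt'
  choose e₀ he₀ using hA
  obtain ⟨D, φ, Φ, X₁, hDd, hcomm, hφinj, hX₁, hXs, hcl⟩ :=
    lattice (univ.biUnion fun i => (A i).image fun e => c i e - c i (e₀ i))
  set X : Fin r → Finset (Fin D → ℤ) := fun i =>
    ((A i).image fun e => c i e - c i (e₀ i)).preimage φ hφinj.injOn with hXdef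
  have hX : ∀ i x, x ∈ X i ↔ ∃ e ∈ A i, c i e - c i (e₀ i) = φ x := by
    intro i x
    rw [hXdef]
    simp only [Finset.mem_preimage, Finset.mem_image]
  have hXX₁ : {x : Fin D → ℤ | ∃ i, x ∈ X i} = (X₁ : Set (Fin D → ℤ)) := by
    ext x
    simp only [Set.mem_ofPred_eq, Finset.mem_coe]
    rw [hX₁, Finset.mem_biUnion]
    constructor
    · rintro ⟨i, hi⟩
      exact ⟨i, Finset.mem_univ _, Finset.mem_image.2 ((hX i x).1 hi)⟩
    · rintro ⟨i, _, hi⟩
      exact ⟨i, (hX i x).2 (Finset.mem_image.1 hi)⟩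
  set g : Fin r → G := fun i => t i + ψ (c i (e₀ i)) with hg
  have h0X : ∀ i, (0 : Fin D → ℤ) ∈ X i := by
    intro i
    rw [hX]
    exact ⟨e₀ i, he₀ i, by rw [sub_self, map_zero]⟩
  -- the set `2 B`
  set C : Set (Fin d → ℝ) := (2 : ℝ) • B with hC
  have hCc : Convex ℝ C := hB.smul 2
  have hC0 : (0 : Fin d → ℝ) ∈ C := ⟨0, h0B, smul_zero _⟩
  have hCs : ∀ x ∈ C, -x ∈ C := by
    rintro x ⟨y, hy, rfl⟩
    exact ⟨-y, hsymm y hy, smul_neg _ _⟩
  have hdiff : ∀ i, ∀ e ∈ A i, ∀ e' ∈ A i, re (c i e - c i e') ∈ C := by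
    intro i e he e' he'
    rw [re_sub]
    have h1 := hB (hc i e he).1 (hsymm _ (hc i e' he').1) (show (0 : ℝ) ≤ 1 / 2 by norm_num)
      (show (0 : ℝ) ≤ 1 / 2 by norm_num) (by norm_num)
    refine ⟨_, h1, ?_⟩
    simp only [smul_add, smul_smul, smul_neg]
    norm_num [sub_eq_add_neg]
  have hXC : ∀ i, ∀ x ∈ X i, Φ (re x) ∈ C := by
    intro i x hx
    obtain ⟨e, he, hex⟩ := (hX i x).1 hx
    rw [hcomm, ← hex]
    exact hdiff i e he _ (he₀ i)
  have hXE : ∀ i, ∀ x ∈ X i, ∃ e ∈ A i, e - (g i + ψ (φ x)) ∈ H := by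
    intro i x hx
    obtain ⟨e, he, hex⟩ := (hX i x).1 hx
    refine ⟨e, he, ?_⟩
    rw [← hex, hg, map_sub]
    have : e - (t i + ψ (c i (e₀ i)) + (ψ (c i e) - ψ (c i (e₀ i)))) = e - (t i + ψ (c i e)) := by
      abel
    rw [this]
    exact (hc i e he).2
  have hEX : ∀ i, ∀ e ∈ A i, ∃ x ∈ X i, e - (g i + ψ (φ x)) ∈ H := by
    intro i e he
    obtain ⟨x, hx⟩ := hXs (c i e - c i (e₀ i))
      (Finset.mem_biUnion.2 ⟨i, Finset.mem_univ _, Finset.mem_image.2 ⟨e, he, rfl⟩⟩)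
    refine ⟨x, (hX i x).2 ⟨e, he, hx.symm⟩, ?_⟩
    rw [hx, hg, map_sub]
    have : e - (t i + ψ (c i (e₀ i)) + (ψ (c i e) - ψ (c i (e₀ i)))) = e - (t i + ψ (c i e)) := by
      abel
    rw [this]
    exact (hc i e he).2
  have hRpos : (0 : ℝ) < R := by
    have : 0 < R := by omega
    exact_mod_cast this
  have hscale : ∀ (k : ℕ) (y : Fin d → ℝ), 0 < k → 2 * k ≤ R → ((k : ℝ))⁻¹ • y ∈ C →
      (R : ℝ)⁻¹ • y ∈ B := by
    intro k y hk hkR hy
    have hk' : (0 : ℝ) < k := by exact_mod_cast hk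
    obtain ⟨b, hb, hby⟩ := hy
    have h1 : (R : ℝ)⁻¹ • y = ((2 * (k : ℝ)) / R) • b := by
      have h2 : y = (k : ℝ) • ((k : ℝ)⁻¹ • y) := by
        rw [smul_smul, mul_inv_cancel₀ hk'.ne', one_smul]
      rw [h2, ← hby]
      simp only [smul_smul]
      congr 1
      field_simp
    rw [h1]
    refine hB.smul_mem_of_zero_mem h0B hb ⟨by positivity, ?_⟩
    rw [div_le_one hRpos]
    exact_mod_cast hkR
  refine ⟨D, φ, X, g, hDd, h0X, by rw [hXX₁]; exact hcl, hφinj, hEX, hXE, ?_, ?_⟩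
  · intro n m x hx h hh
    obtain ⟨s, s', hs, hs', hsX, hsX', hrem⟩ := split2 (d := d) X h0X n m (re x) hx
    have h1 := hrem Φ C hCc hC0 hCs hXC
    -- the remainder
    set w : Fin D → ℤ := x - ∑ i, ((s i).sum - (s' i).sum) with hw
    have hrew : re w = re x - ∑ i, (re (s i).sum - re (s' i).sum) := by
      rw [hw, re_sub, re_sum]
      congr 1
      exact Finset.sum_congr rfl fun i _ => re_sub _ _
    rw [← hrew, hcomm] at h1
    have hwB : (R : ℝ)⁻¹ • re (φ w) ∈ B := hscale (2 * D + 1) _ (by omega) (by omega) h1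
    have hwP : ∀ h' ∈ H, ψ (φ w) + h' ∈ P := by
      intro h' hh'
      refine hDS _ ?_ h' hh'
      have : (fun i => (φ w i : ℝ) / R) = (R : ℝ)⁻¹ • re (φ w) := by
        ext i
        simp [re, div_eq_inv_mul]
      rw [this]
      exact hwB
    -- choose elements of `A i`
    have hXE' : ∀ i, ∀ x : Fin D → ℤ, ∃ e : G, x ∈ X i → e ∈ A i ∧ e - (g i + ψ (φ x)) ∈ H := by
      intro i x
      by_cases hx : x ∈ X i
      · obtain ⟨e, he, he'⟩ := hXE i x hx
        exact ⟨e, fun _ => ⟨he, he'⟩⟩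
      · exact ⟨0, fun h => absurd h hx⟩
    choose f hf using hXE'
    have hsum : ∀ i, ∀ s : Multiset (Fin D → ℤ), (∀ x ∈ s, x ∈ X i) →
        (s.map (f i)).sum - ((Multiset.card s : ℤ) • g i + ψ (φ s.sum)) ∈ H := by
      intro i s hs
      induction s using Multiset.induction with
      | empty => simp
      | cons a s ih =>
        have h1 := ih fun x hx => hs x (Multiset.mem_cons_of_mem hx)
        have h2 := (hf i a (hs a (Multiset.mem_cons_self a s))).2
        have h3 := H.add_mem h2 h1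
        rw [Multiset.map_cons, Multiset.sum_cons, Multiset.card_cons, Multiset.sum_cons, map_add,
          map_add]
        push_cast
        rw [add_smul, one_smul]
        have h4 : f i a + (s.map (f i)).sum - ((Multiset.card s : ℤ) • g i + g i +
            (ψ (φ a) + ψ (φ s.sum))) = f i a - (g i + ψ (φ a)) +
            ((s.map (f i)).sum - ((Multiset.card s : ℤ) • g i + ψ (φ s.sum))) := by abel
        rw [h4]
        exact h3
    have h3 : ∀ i, ((s i).map (f i)).sum - ((n i : ℤ) • g i + ψ (φ (s i).sum)) ∈ H := by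
      intro i
      have := hsum i (s i) (hsX i)
      rwa [hs i] at this
    have h4 : ∀ i, ((s' i).map (f i)).sum - ((m i : ℤ) • g i + ψ (φ (s' i).sum)) ∈ H := by
      intro i
      have := hsum i (s' i) (hsX' i)
      rwa [hs' i] at this
    have h5 := fsums_of_ms A n m (fun i => (s i).map (f i)) (fun i => (s' i).map (f i))
      (fun i => by rw [Multiset.card_map, hs]) (fun i => by rw [Multiset.card_map, hs'])
      (by
        intro i a ha
        obtain ⟨x, hx, rfl⟩ := Multiset.mem_map.1 ha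
        exact (hf i x (hsX i x hx)).1)
      (by
        intro i a ha
        obtain ⟨x, hx, rfl⟩ := Multiset.mem_map.1 ha
        exact (hf i x (hsX' i x hx)).1)
    have h6 : ∑ i, (((s i).map (f i)).sum - ((n i : ℤ) • g i + ψ (φ (s i).sum)) -
        (((s' i).map (f i)).sum - ((m i : ℤ) • g i + ψ (φ (s' i).sum)))) ∈ H :=
      H.sum_mem fun i _ => H.sub_mem (h3 i) (h4 i)
    refine ⟨_, h5, ψ (φ w) + (h - ∑ i, (((s i).map (f i)).sum -
      ((n i : ℤ) • g i + ψ (φ (s i).sum)) -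
        (((s' i).map (f i)).sum - ((m i : ℤ) • g i + ψ (φ (s' i).sum))))),
        hwP _ (H.sub_mem hh h6), ?_⟩
    rw [hw, map_sub, map_sub, map_sum, map_sum]
    simp only [map_sub, Finset.sum_sub_distrib, Finset.sum_add_distrib]
    abel
  · rintro x ⟨z, hz, hx⟩
    have h1 : Body X ⊆ Φ ⁻¹' C := by
      apply convexHull_min
      · rintro _ ⟨i, x, hx, y, hy, rfl⟩
        obtain ⟨e, he, hex⟩ := (hX i x).1 hx
        obtain ⟨e', he', hey⟩ := (hX i y).1 hy
        rw [Set.mem_preimage, hcomm, map_sub, ← hex, ← hey]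
        have h2 := hdiff i e he e' he'
        have h3 : c i e - c i (e₀ i) - (c i e' - c i (e₀ i)) = c i e - c i e' := by abel
        rw [h3]
        exact h2
      · exact hCc.linear_preimage Φ
    have h2 : Φ z ∈ C := h1 hz
    have : (fun i => (φ x i : ℝ) / R) = (R : ℝ)⁻¹ • re (φ x) := by
      ext i
      simp [re, div_eq_inv_mul]
    rw [this]
    have hk' : (0 : ℝ) < ((2 * (D + 1) : ℕ) : ℝ) := by positivity
    refine hscale (2 * (D + 1)) _ (by omega) (by omega) ?_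
    rw [← hcomm, ← hx]
    simp only
    rw [map_smul, smul_smul, inv_mul_cancel₀ hk'.ne', one_smul]
    exact h2

end H24.SS
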